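import Pool.Agent.H7.KR.Stmts

/-!
# Row ZSM of board `kr`: the parts of a clique of the largest size
-/

set_option autoImplicit false

open Finset

namespace Pool.KR

open Pool.Agent.H23.KT Pool.Agent.H46.KW Pool.KQ

theorem zsm : ZSMStmt := by
  intro V _ G p W S hCB hS
  have hCB' : CB G W ((p + 1) + 1) := hCB
  have hS' : S ∈ clq G W ((p + 1) + 1) := hS
  obtain ⟨hSW, hSc, hScl⟩ := (mem_clq G).1 hS
  have key : (S.biUnion (fun z => cn G W (S.erase z))) =
      W.filter (fun z => (nb G S z).card = p + 1) := by
    ext z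
    rw [mem_biUnion, mem_filter]
    constructor
    · rintro ⟨w, hw, hz⟩
      rw [mem_cn] at hz
      refine ⟨hz.1, ?_⟩
      have hnw : ¬ G.Adj z w := by
        intro h
        apply not_all hCB' hS' hz.1
        intro s hs
        by_cases hsw : s = w
        · rw [hsw]
          exact h.symm
        · exact hz.2 s (mem_erase.2 ⟨hsw, hs⟩)
      have he : nb G S z = S.erase w := by
        ext s
        rw [mem_nb, mem_erase]
        constructor
        · rintro ⟨h1, h2⟩
          refine ⟨?_, h1⟩
          rintro rfl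
          exact hnw h2
        · rintro ⟨h1, h2⟩
          exact ⟨h2, (hz.2 s (mem_erase.2 ⟨h1, h2⟩)).symm⟩
      rw [he, card_erase_of_mem hw, hSc]
      rfl
    · rintro ⟨hz, hc⟩
      have hss : nb G S z ⊆ S := nb_subset G S z
      have h1 : (S \ nb G S z).card = 1 := by
        rw [card_sdiff_of_subset hss, hSc, hc]
        omega
      obtain ⟨w, hw⟩ := card_eq_one.1 h1
      have hwS : w ∈ S := (mem_sdiff.1 (hw ▸ mem_singleton_self w : w ∈ S \ nb G S z)).1
      refine ⟨w, hwS, mem_cn.2 ⟨hz, ?_⟩⟩
      intro s hs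
      rw [mem_erase] at hs
      by_contra hns
      have h2 : s ∈ S \ nb G S z := by
        rw [mem_sdiff, mem_nb]
        exact ⟨hs.2, fun h => hns h.2.symm⟩
      rw [hw, mem_singleton] at h2
      exact hs.1 h2
  rw [← card_parts hCB' hS' (M := S), key]
  unfold ze
  exact card_filter_add_card_filter_not _

end Pool.KR
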